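import Pool.Agent.TH818.AP.Shift

/-!
# Polynomial lower bounds for `|a_1^{b_1} ⋯ a_n^{b_n} - 1|` for almost all arithmetic progressions
-/

set_option autoImplicit false

open Set

namespace Pool.Agent.Results.MP_e07dae_nt.ArithmeticProgressions

open Pool.Agent.TH818.AP

/-- The integers `x` in `[N, 2N]` for which there are integers `b_0, b_1, …, b_m`, not all zero and of absolute value at
most `N ^ κ`, with `|y ^ b_0 (x + s_1 y) ^ b_1 ⋯ (x + s_m y) ^ b_m - 1| ≤ N ^ (-E)`; `b_0` is `b none`, `b_j` is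
`b (some j)`. -/
def Exceptional {m : ℕ} (s : Fin m → ℕ) (N y : ℕ) (κ E : ℝ) : Set ℕ :=
  {x | N ≤ x ∧ x ≤ 2 * N ∧ ∃ b : Option (Fin m) → ℤ, b ≠ 0 ∧ (∀ o, |(b o : ℝ)| ≤ (N : ℝ) ^ κ) ∧
    |(y : ℝ) ^ (b none) * ∏ j, ((x : ℝ) + s j * y) ^ (b (some j)) - 1| ≤ (N : ℝ) ^ (-E)}

theorem abs_log_le {x δ : ℝ} (hδ : δ ≤ 1 / 2) (h : |x - 1| ≤ δ) : |Real.log x| ≤ 2 * δ := by
  obtain ⟨h1, h2⟩ := abs_le.1 h
  have hx : 1 / 2 ≤ x := by linarith
  have hxp : 0 < x := by linarith
  have h3 := Real.log_le_sub_one_of_pos hxp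
  have h4 := Real.one_sub_inv_le_log_of_pos hxp
  have hδ0 : 0 ≤ δ := (abs_nonneg _).trans h
  have h5 : -(2 * δ) ≤ 1 - x⁻¹ := by
    have h6 : x⁻¹ ≤ 1 + 2 * δ := by
      rw [inv_le_iff_one_le_mul₀ hxp]
      nlinarith
    linarith
  rw [abs_le]
  constructor <;> linarith

/-- the scaling matrix -/
noncomputable def tauS {m : ℕ} (L : ℝ) (o o' : Option (Fin m)) : ℝ :=
  match o, o' with
  | none, none => L
  | none, some _ => 0
  | some _, none => L
  | some j, some j' => if j = j' then 1 else 0

/-- the rank function -/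
def rkS {m : ℕ} (o : Option (Fin m)) : ℕ := o.elim 0 fun _ => 1

theorem tri_tauS {m : ℕ} {L : ℝ} (hL : 1 ≤ L) : Tri (rkS (m := m)) (tauS L) := by
  constructor
  · intro o
    match o with
    | none => simpa [tauS] using hL.trans (le_abs_self L)
    | some j => simp [tauS]
  · intro o o' hne hle
    match o, o' with
    | none, none => exact absurd rfl hne
    | none, some j => rfl
    | some j, none => simp [rkS] at hle
    | some j, some j' =>
      have : j ≠ j' := fun h => hne (by rw [h])
      simp [tauS, this]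

theorem sum_tauS {m : ℕ} (L : ℝ) (s : Fin m → ℝ) (o : Option (Fin m)) (t : ℝ) :
    ∑ o', tauS L o o' * gS s o' t = match o with
      | none => L
      | some j => L + Real.log (t + s j) := by
  rw [Fintype.sum_option]
  match o with
  | none => simp [tauS, gS]
  | some j => simp [tauS, gS]

/-- Let `s_1, …, s_m` be distinct natural numbers, `κ ≥ 0` and `β > (m + 1) / (m + 2)`. There are `E` and `C` such that for
all `N ≥ 1` and all integers `y` in `[N, 2N]` there are at most `C N^β` exceptional `x` in `[N, 2N]`. -/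
theorem result {m : ℕ} (s : Fin m → ℕ) (hs : Function.Injective s) (κ β : ℝ) (hκ : 0 ≤ κ)
    (hβ : ((m : ℝ) + 1) / ((m : ℝ) + 2) < β) :
    ∃ E C : ℝ, ∀ N y : ℕ, 1 ≤ N → N ≤ y → y ≤ 2 * N → (Exceptional s N y κ E).Finite ∧
      ((Exceptional s N y κ E).ncard : ℝ) ≤ C * (N : ℝ) ^ β := by
  classical
  have hβ0 : 0 < β := lt_of_le_of_lt (by positivity) hβ
  have hcard : Fintype.card (Option (Fin m)) = m + 1 := by simp
  let eO : Fin (m + 1) ≃ Option (Fin m) := (Fintype.equivFinOfCardEq hcard).symm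
  let σ : Fin (m + 1) ↪ Option (Fin m) × Unit := ⟨fun i => (eO i, ()), fun i i' h => eO.injective (Prod.ext_iff.1 h).1⟩
  have hinj : Function.Injective fun j => (s j : ℝ) := fun j j' h => hs (Nat.cast_injective h)
  obtain ⟨κ', C1, hC1, hU⟩ := uniformSZ σ (gS fun j => (s j : ℝ)) (1 / 2) 2 (by norm_num)
    (fun o t ht => by
      match o with
      | none => exact analyticAt_const
      | some j =>
        have h2 : AnalyticAt ℝ (fun t : ℝ => t + (s j : ℝ)) t := analyticAt_id.add analyticAt_const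
        refine h2.log ?_
        have h3 : (0 : ℝ) ≤ s j := by positivity
        have h4 := ht.1
        have h5 : (0 : ℝ) < t + s j := by linarith
        exact h5)
    (shift_indep _ hinj (fun j => by positivity) (1 / 2) 2 (by norm_num) (by norm_num)) rkS κ β hκ (by
      refine lt_of_le_of_lt (le_of_eq ?_) hβ
      push_cast
      ring)
  obtain ⟨B1, T1, hmeas⟩ := goodConst_one κ'
  obtain ⟨B, T2, hT2, hU'⟩ := hU B1
  set B' : ℝ := max B 0 with hB'
  have hB'0 : 0 ≤ B' := le_max_right _ _
  set E : ℝ := 2 * B' + 2 with hE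
  set T3 : ℝ := max (max T1 T2) 3 with hT3
  have hT33 : (3 : ℝ) ≤ T3 := le_max_right _ _
  refine ⟨E, C1 * 2 ^ β + (T3 + 1), fun N y hN hy1 hy2 => ?_⟩
  have hbox : Exceptional s N y κ E ⊆ (Finset.Icc N (2 * N) : Finset ℕ) := by
    intro x hx
    rw [Finset.mem_coe]
    exact Finset.mem_Icc.2 ⟨hx.1, hx.2.1⟩
  refine ⟨(Finset.finite_toSet _).subset hbox, ?_⟩
  have hN1 : (1 : ℝ) ≤ N := by exact_mod_cast hN
  have hone : 1 ≤ (N : ℝ) ^ β := Real.one_le_rpow hN1 hβ0.le
  have hCC : 0 ≤ C1 * (2 : ℝ) ^ β := by positivity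
  rcases le_or_gt T3 (N : ℝ) with hT | hT
  · have hN3 : (3 : ℝ) ≤ N := hT33.trans hT
    have hNp : (0 : ℝ) < N := by linarith
    have hyN : (N : ℝ) ≤ y := by exact_mod_cast hy1
    have hyN2 : (y : ℝ) ≤ 2 * N := by exact_mod_cast hy2
    have hyp : (0 : ℝ) < y := by linarith
    have hy1' : (1 : ℝ) ≤ y := by linarith
    have hL : 1 ≤ Real.log y := by
      rw [Real.le_log_iff_exp_le hyp]
      have := Real.exp_one_lt_three
      linarith
    obtain ⟨hfin, hnc⟩ := hU' y y rfl (((le_max_right T1 T2).trans (le_max_left _ 3)).trans (hT.trans hyN))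
      (tauS (Real.log y)) (tri_tauS hL) (fun _ => 1)
      (hmeas y (((le_max_left T1 T2).trans (le_max_left _ 3)).trans (hT.trans hyN)))
    have hle : (Exceptional s N y κ E).ncard ≤ (ExcSZ σ (gS fun j => (s j : ℝ)) (1 / 2) 2 κ B y y
        (tauS (Real.log y)) (fun _ => 1)).ncard := by
      refine Set.ncard_le_ncard_of_injOn (fun x : ℕ => (x : ℚ) / y) ?_ ?_ hfin
      · rintro x ⟨hx1, hx2, b, hb0, hb, hbs⟩
        have hx1' : (N : ℝ) ≤ x := by exact_mod_cast hx1
        have hx2' : (x : ℝ) ≤ 2 * N := by exact_mod_cast hx2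
        refine ⟨⟨?_, ?_⟩, ⟨x, by push_cast; rfl⟩, fun i => b (eO i), ?_, fun i => (hb _).trans ?_, ?_⟩
        · push_cast
          rw [le_div_iff₀ hyp]
          linarith
        · push_cast
          rw [div_le_iff₀ hyp]
          linarith
        · intro hcon
          apply hb0
          funext o
          have := congrFun hcon (eO.symm o)
          simpa using this
        · exact Real.rpow_le_rpow hNp.le hyN hκ
        · have hEN : (N : ℝ) ^ (-E) ≤ 1 / 2 := by
            calc (N : ℝ) ^ (-E) ≤ (N : ℝ) ^ (-1 : ℝ) :=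
                  Real.rpow_le_rpow_of_exponent_le hN1 (by rw [hE]; linarith)
              _ = (N : ℝ)⁻¹ := Real.rpow_neg_one _
              _ ≤ 1 / 2 := by
                  rw [one_div]
                  exact inv_anti₀ (by norm_num) (by linarith)
          have h2 := abs_log_le hEN hbs
          have hxs : ∀ j, (0 : ℝ) < (x : ℝ) + s j * y := fun j => by
            have h3 : (0 : ℝ) ≤ (s j : ℝ) * y := by positivity
            linarith
          rw [Real.log_mul (zpow_pos hyp _).ne' (Finset.prod_ne_zero_iff.2 fun j _ => (zpow_pos (hxs j) _).ne'),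
            Real.log_prod (fun j _ => (zpow_pos (hxs j) _).ne')] at h2
          simp only [Real.log_zpow] at h2
          have h3 : ∑ i, ((b (eO i) : ℤ) : ℝ) * ((fun _ : Unit => (1 : ℝ)) (σ i).2 *
              ∑ l', tauS (Real.log y) (σ i).1 l' * gS (fun j => (s j : ℝ)) l' (((x : ℚ) / y : ℚ) : ℝ)) =
              (b none : ℝ) * Real.log y + ∑ j, (b (some j) : ℝ) * Real.log ((x : ℝ) + s j * y) := by
            have h4 : ∀ i, ((b (eO i) : ℤ) : ℝ) * ((fun _ : Unit => (1 : ℝ)) (σ i).2 *
              ∑ l', tauS (Real.log y) (σ i).1 l' * gS (fun j => (s j : ℝ)) l' (((x : ℚ) / y : ℚ) : ℝ)) =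
              (fun o : Option (Fin m) => (b o : ℝ) * ∑ l', tauS (Real.log y) o l' *
                gS (fun j => (s j : ℝ)) l' (((x : ℚ) / y : ℚ) : ℝ)) (eO i) := by
              intro i
              simp only [one_mul]
              rfl
            rw [Finset.sum_congr rfl fun i _ => h4 i, Equiv.sum_comp eO (fun o : Option (Fin m) => (b o : ℝ) *
              ∑ l', tauS (Real.log y) o l' * gS (fun j => (s j : ℝ)) l' (((x : ℚ) / y : ℚ) : ℝ)),
              Fintype.sum_option]
            simp only [sum_tauS]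
            congr 1
            refine Finset.sum_congr rfl fun j _ => ?_
            have h5 : (x : ℝ) + s j * y = y * ((((x : ℚ) / y : ℚ) : ℝ) + s j) := by
              push_cast
              field_simp
            have h6 : (0 : ℝ) < (((x : ℚ) / y : ℚ) : ℝ) + s j := by
              have h7 := hxs j
              rw [h5] at h7
              exact pos_of_mul_pos_right h7 hyp.le
            rw [h5, Real.log_mul hyp.ne' h6.ne']
          rw [h3]
          refine h2.trans ?_
          have h8 : (y : ℝ) ^ (-B') ≤ (y : ℝ) ^ (-B) :=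
            Real.rpow_le_rpow_of_exponent_le hy1' (by linarith [le_max_left B 0])
          refine le_trans ?_ h8
          calc 2 * (N : ℝ) ^ (-E) = 2 * ((N : ℝ) ^ (-(B' + 2)) * (N : ℝ) ^ (-B')) := by
                rw [← Real.rpow_add hNp]
                congr 2
                rw [hE]
                ring
            _ ≤ 2 * ((2 : ℝ) ^ (-(B' + 2)) * (N : ℝ) ^ (-B')) := by
                gcongr 2 * (?_ * _)
                exact Real.rpow_le_rpow_of_nonpos (by norm_num) (by linarith) (by linarith)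
            _ ≤ (2 : ℝ) ^ (-B') * (N : ℝ) ^ (-B') := by
                rw [← mul_assoc]
                gcongr
                have h9 : (2 : ℝ) ^ (-(B' + 2)) = (2 : ℝ) ^ (-B') * (2 : ℝ) ^ (-2 : ℝ) := by
                  rw [← Real.rpow_add (by norm_num)]
                  congr 1
                  ring
                have h10 : (2 : ℝ) ^ (-2 : ℝ) = 1 / 4 := by
                  rw [Real.rpow_neg (by norm_num)]
                  norm_num
                rw [h9, h10]
                have : (0 : ℝ) < (2 : ℝ) ^ (-B') := by positivity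
                linarith
            _ = (2 * N : ℝ) ^ (-B') := by rw [Real.mul_rpow (by norm_num) hNp.le]
            _ ≤ (y : ℝ) ^ (-B') := Real.rpow_le_rpow_of_nonpos hyp hyN2 (by linarith)
      · intro x _ x' _ h
        have hyq : (y : ℚ) ≠ 0 := by
          have : y ≠ 0 := by omega
          exact_mod_cast this
        have h1 : (x : ℚ) / y = (x' : ℚ) / y := h
        rw [div_left_inj' hyq] at h1
        exact_mod_cast h1
    have h1 : ((Exceptional s N y κ E).ncard : ℝ) ≤ C1 * (y : ℝ) ^ β := by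
      refine le_trans ?_ hnc
      exact_mod_cast hle
    have h2 : (y : ℝ) ^ β ≤ (2 : ℝ) ^ β * (N : ℝ) ^ β := by
      rw [← Real.mul_rpow (by norm_num) hNp.le]
      exact Real.rpow_le_rpow hyp.le hyN2 hβ0.le
    have h3 : C1 * (y : ℝ) ^ β ≤ C1 * ((2 : ℝ) ^ β * (N : ℝ) ^ β) := by gcongr
    have h4 : (0 : ℝ) ≤ (T3 + 1) * (N : ℝ) ^ β := by positivity
    calc ((Exceptional s N y κ E).ncard : ℝ) ≤ C1 * ((2 : ℝ) ^ β * (N : ℝ) ^ β) := h1.trans h3
      _ ≤ C1 * ((2 : ℝ) ^ β * (N : ℝ) ^ β) + (T3 + 1) * (N : ℝ) ^ β := by linarith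
      _ = (C1 * 2 ^ β + (T3 + 1)) * (N : ℝ) ^ β := by ring
  · have h2 := Set.ncard_le_ncard hbox (Finset.finite_toSet _)
    rw [Set.ncard_coe_finset, Nat.card_Icc] at h2
    have h3 : 2 * N + 1 - N = N + 1 := by omega
    rw [h3] at h2
    have h4 : ((Exceptional s N y κ E).ncard : ℝ) ≤ (N : ℝ) + 1 := by exact_mod_cast h2
    nlinarith

end Pool.Agent.Results.MP_e07dae_nt.ArithmeticProgressions
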