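import Pool.Agent.W243.LangJ

set_option autoImplicit false

/-! The Lang-Waldschmidt conjecture fails for seven integers, for every epsilon below 1/14. -/

namespace Pool.Agent.Results.MP_e07dae_nt.SevenIntegers

open Pool.Agent.W243.LangI Pool.Agent.W243.LangJ

/-- `P(a,b)` is the product of the powers `a_j ^ b_j` -/
noncomputable def P {n : ℕ} (a : Fin n → ℕ) (b : Fin n → ℤ) : ℝ := ∏ j, (a j : ℝ) ^ (b j)

/-- `H(a,b)` is the absolute value of the product of all `a_j`, `b_j` -/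
noncomputable def H {n : ℕ} (a : Fin n → ℕ) (b : Fin n → ℤ) : ℝ :=
  |(∏ j, (b j : ℝ)) * ∏ j, (a j : ℝ)|

theorem a_gt (t : ℕ) (ht : 10^10 ≤ t) (j : Fin 7) : 1 < a t j := by
  have h3 : (10:ℤ)^10 ≤ (t:ℤ) := by exact_mod_cast ht
  have h := tsqZ t ht
  have h1 : 1 < aZ t j := by
    fin_cases j <;> simp [aZ] <;> linarith
  unfold a
  omega

theorem a_inj (t : ℕ) (ht : 10^10 ≤ t) : Function.Injective (a t) := by
  intro i j hij
  have h3 : (10:ℤ)^10 ≤ (t:ℤ) := by exact_mod_cast ht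
  have h2 : (10:ℤ)^10 * t ≤ (t:ℤ)^2 := by nlinarith
  have h4 : aZ t i = aZ t j := by
    have p1 := aZ_pos t ht i
    have p2 := aZ_pos t ht j
    unfold a at hij
    omega
  fin_cases i <;> fin_cases j <;> simp [aZ] at h4 ⊢ <;> linarith

theorem pair_inj : Set.InjOn (fun t : ℕ => ((a t, b t) : (Fin 7 → ℕ) × (Fin 7 → ℤ)))
    {t | 10^10 ≤ t} := by
  intro t ht t' ht' h
  have h1 : (b t 0) = b t' 0 := congrFun (Prod.ext_iff.1 h).2 0
  have h2 : (t : ℤ) = t' := by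
    simp [b] at h1
    linarith
  exact_mod_cast h2

theorem result (ε : ℝ) (h0 : 0 < ε) (h1 : ε < 1 / 14) (C : ℝ) (hC : 0 < C) :
    {p : (Fin 7 → ℕ) × (Fin 7 → ℤ) | Function.Injective p.1 ∧ (∀ j, 1 < p.1 j) ∧
      (∀ j, p.2 j ≠ 0) ∧ P p.1 p.2 ≠ 1 ∧ ∃ k, (∀ j, |p.2 j| ≤ |p.2 k|) ∧
        |P p.1 p.2 - 1| < C * |p.2 k| / H p.1 p.2 ^ (1 + ε)}.Infinite := by
  have hpos : 0 < 1 - 14 * ε := by linarith
  have hev := ((tendsto_rpow_atTop hpos).comp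
    (tendsto_natCast_atTop_atTop (R := ℝ))).eventually_gt_atTop
      (2 * (10:ℝ)^85 * ((10:ℝ)^161) ^ (1 + ε) / C)
  obtain ⟨T, hT⟩ := Filter.eventually_atTop.1 hev
  have hinf : (Set.Ici (max T (10^10))).Infinite := Set.Ici_infinite _
  refine (hinf.image (pair_inj.mono ?_)).mono ?_
  · intro t ht
    have ht' : max T (10^10) ≤ t := ht
    exact le_trans (le_max_right T _) ht'
  rintro _ ⟨t, ht, rfl⟩
  replace ht : max T (10^10) ≤ t := ht
  have htT : T ≤ t := le_trans (le_max_left T (10^10)) ht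
  have ht10 : 10^10 ≤ t := le_trans (le_max_right T _) ht
  have ht10' : (10:ℝ)^10 ≤ (t:ℝ) := by exact_mod_cast ht10
  have hF := F_pos (t:ℝ) ht10'
  have ht0 : (0:ℝ) < (t:ℝ) := lt_of_lt_of_le (by norm_num) ht10'
  have hP : P (a t) (b t) = Real.exp (F t) := prod_eq t ht10
  refine ⟨a_inj t ht10, a_gt t ht10, b_ne t ht10, ?_, ?_⟩
  · show P (a t) (b t) ≠ 1
    rw [hP]
    intro h
    rw [Real.exp_eq_one_iff] at h
    exact hF.1.ne' h
  obtain ⟨k, -, hk⟩ := Finset.exists_max_image Finset.univ (fun j => |b t j|)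
    Finset.univ_nonempty
  refine ⟨k, fun j => hk j (Finset.mem_univ j), ?_⟩
  show |P (a t) (b t) - 1| < C * ((|b t k| : ℤ) : ℝ) / H (a t) (b t) ^ (1 + ε)
  have hS : (t:ℝ) ≤ ((|b t k| : ℤ) : ℝ) := by
    have h5 : (t:ℤ) ≤ b t 0 := by
      have h3 : (10:ℤ)^10 ≤ (t:ℤ) := by exact_mod_cast ht10
      simp [b]
      linarith
    have h6 : (t:ℤ) ≤ |b t k| := h5.trans ((le_abs_self _).trans (hk 0 (Finset.mem_univ 0)))
    exact_mod_cast h6
  have hF1 : F t ≤ 1 := by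
    refine hF.2.trans ?_
    rw [div_le_one (by positivity)]
    calc (10:ℝ)^85 ≤ (10^10)^14 := by norm_num
      _ ≤ (t:ℝ)^14 := by gcongr
  have hexp : |Real.exp (F t) - 1| ≤ 2 * (10^85 / (t:ℝ)^14) := by
    have h1 : |F t| ≤ 1 := by rw [abs_of_pos hF.1]; exact hF1
    have h2 := Real.abs_exp_sub_one_le h1
    rw [abs_of_pos hF.1] at h2
    linarith [hF.2]
  rw [hP]
  refine lt_of_le_of_lt hexp ?_
  have hH : H (a t) (b t) = (∏ j, |((b t j : ℤ) : ℝ)|) * (∏ j, ((a t j : ℕ) : ℝ)) := by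
    unfold H
    rw [abs_mul, Finset.abs_prod, Finset.abs_prod]
    congr 1
    exact Finset.prod_congr rfl fun j _ => Nat.abs_cast _
  have hPB := prodB_le t ht10
  have hPA := prodA_le t ht10
  have hPB1 : (0:ℝ) < ∏ j, |((b t j : ℤ) : ℝ)| := by
    apply Finset.prod_pos
    intro j _
    have := b_ne t ht10 j
    positivity
  have hPA1 : (0:ℝ) < ∏ j, ((a t j : ℕ) : ℝ) := by
    apply Finset.prod_pos
    intro j _
    exact_mod_cast a_pos t ht10 j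
  have hH0 : 0 < H (a t) (b t) := by
    rw [hH]
    positivity
  have hH1 : H (a t) (b t) ≤ 10^161 * (t:ℝ)^14 := by
    rw [hH]
    calc _ ≤ (10^159 * (t:ℝ)^4) * (16 * (t:ℝ)^10) := by
          apply mul_le_mul hPB hPA hPA1.le (by positivity)
      _ = (10^159 * 16) * (t:ℝ)^14 := by ring
      _ ≤ 10^161 * (t:ℝ)^14 := by
          gcongr
          norm_num
  have hHe : H (a t) (b t) ^ (1 + ε) ≤ ((10:ℝ)^161) ^ (1 + ε) * (t:ℝ) ^ (14 * (1 + ε)) := by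
    calc _ ≤ (10^161 * (t:ℝ)^14) ^ (1 + ε) := Real.rpow_le_rpow hH0.le hH1 (by linarith)
      _ = ((10:ℝ)^161) ^ (1 + ε) * ((t:ℝ)^14) ^ (1 + ε) :=
          Real.mul_rpow (by positivity) (by positivity)
      _ = _ := by
          rw [← Real.rpow_natCast (t:ℝ) 14, ← Real.rpow_mul ht0.le]
          norm_num
  have hHe0 : 0 < H (a t) (b t) ^ (1 + ε) := Real.rpow_pos_of_pos hH0 _
  have hK : 2 * (10:ℝ)^85 * ((10:ℝ)^161) ^ (1 + ε) / C < (t:ℝ) ^ (1 - 14 * ε) := hT t htT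
  rw [div_lt_iff₀ hC] at hK
  rw [← mul_div_assoc, div_lt_div_iff₀ (by positivity) hHe0]
  have hsplit : (t:ℝ) ^ (1 - 14 * ε) * (t:ℝ) ^ (14 * (1 + ε)) = (t:ℝ) * (t:ℝ)^14 := by
    rw [← Real.rpow_add ht0, ← pow_succ', ← Real.rpow_natCast]
    congr 1
    push_cast
    ring
  calc 2 * (10:ℝ)^85 * H (a t) (b t) ^ (1 + ε)
      ≤ 2 * (10:ℝ)^85 * (((10:ℝ)^161) ^ (1 + ε) * (t:ℝ) ^ (14 * (1 + ε))) := by gcongr
    _ = (2 * (10:ℝ)^85 * ((10:ℝ)^161) ^ (1 + ε)) * (t:ℝ) ^ (14 * (1 + ε)) := by ring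
    _ < ((t:ℝ) ^ (1 - 14 * ε) * C) * (t:ℝ) ^ (14 * (1 + ε)) := by
        apply mul_lt_mul_of_pos_right hK
        positivity
    _ = C * (t:ℝ) * (t:ℝ)^14 := by
        rw [mul_right_comm, hsplit]
        ring
    _ ≤ C * ((|b t k| : ℤ) : ℝ) * (t:ℝ)^14 := by gcongr

end Pool.Agent.Results.MP_e07dae_nt.SevenIntegers
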