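import Mathlib
import Pool.Agent.TH201.LW.Few2

/-!
# The Lang-Waldschmidt inequality: a square-root bound for the exceptional bases

For fixed non-zero exponents `b_1, ..., b_n` the Lang-Waldschmidt inequality with `C = 1 / 2` and
without loss in the exponent fails for at most `C(n, ε) X ^ (1 / 2 + ε)` of the tuples `a` of
positive integers with `a_1 ⋯ a_n ≤ X` (there are at least `X` such tuples); the constant
`C(n, ε)` does not depend on `b`.  Hence, for every finite set `𝓑` of exponent vectors, it holds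
for all `b ∈ 𝓑` at once outside a set of at most `C(n, ε) |𝓑| X ^ (1 / 2 + ε)` tuples `a`.
-/

set_option autoImplicit false

namespace Pool.Agent.Results.MP_e07dae_nt.SquareRootBases

open Finset

/-- `P(a, b) = a_1 ^ b_1 ... a_n ^ b_n`. -/
noncomputable def P {n : ℕ} (a : Fin n → ℕ) (b : Fin n → ℤ) : ℝ := ∏ i, (a i : ℝ) ^ b i

/-- `H(a, b) = |b_1 ... b_n a_1 ... a_n|`. -/
def H {n : ℕ} (a : Fin n → ℕ) (b : Fin n → ℤ) : ℕ := ∏ i, (b i).natAbs * a i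

/-- `max |b_j|`. -/
def maxExp {n : ℕ} (b : Fin n → ℤ) : ℕ := univ.sup fun i => (b i).natAbs

/-- The Lang-Waldschmidt inequality, with `C = 1 / 2` and exponent `1 + η`, fails for `(a, b)`. -/
def Fails {n : ℕ} (η : ℝ) (a : Fin n → ℕ) (b : Fin n → ℤ) : Prop :=
  |P a b - 1| < 1 / 2 * (maxExp b : ℝ) / (H a b : ℝ) ^ (1 + η)

/-- The tuples `a` of positive integers with `a_1 ⋯ a_n ≤ X` for which the inequality fails for
some of the exponent vectors `b ∈ 𝓑`. -/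
def Exceptional {n : ℕ} (X : ℕ) (η : ℝ) (𝓑 : Finset (Fin n → ℤ)) : Set (Fin n → ℕ) :=
  {a | (∀ i, 1 ≤ a i) ∧ ∏ i, a i ≤ X ∧ ∃ b ∈ 𝓑, Fails η a b}

theorem log_small {n : ℕ} (η : ℝ) (hη : 0 ≤ η) (a : Fin n → ℕ) (ha : ∀ i, 1 ≤ a i)
    (b : Fin n → ℤ) (hb : ∀ i, b i ≠ 0) (h : Fails η a b) :
    |∑ i, (b i : ℝ) * Real.log (a i) + 0| ≤ 1 / ∏ i, (a i : ℝ) := by
  have hA0 : (0 : ℝ) < ∏ i, (a i : ℝ) := prod_pos fun i _ => by exact_mod_cast ha i
  have hA1 : (1 : ℝ) ≤ ∏ i, (a i : ℝ) := by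
    have : 1 ≤ ∏ i, a i := Nat.one_le_iff_ne_zero.2 (prod_ne_zero_iff.2 fun i _ => by
      have := ha i
      omega)
    exact_mod_cast this
  have hB1 : (1 : ℝ) ≤ ∏ i, ((b i).natAbs : ℝ) := by
    have : 1 ≤ ∏ i, (b i).natAbs := Nat.one_le_iff_ne_zero.2 (prod_ne_zero_iff.2 fun i _ => by
      exact Int.natAbs_ne_zero.2 (hb i))
    exact_mod_cast this
  have hmax : (maxExp b : ℝ) ≤ ∏ i, ((b i).natAbs : ℝ) := by
    have hpos : 0 < ∏ i, (b i).natAbs := prod_pos fun i _ => Int.natAbs_pos.2 (hb i)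
    have : maxExp b ≤ ∏ i, (b i).natAbs := Finset.sup_le fun i _ =>
      Nat.le_of_dvd hpos (dvd_prod_of_mem _ (mem_univ i))
    exact_mod_cast this
  have hHe : (H a b : ℝ) = (∏ i, ((b i).natAbs : ℝ)) * ∏ i, (a i : ℝ) := by
    unfold H
    push_cast
    rw [prod_mul_distrib]
  have hH1 : (1 : ℝ) ≤ H a b := by
    rw [hHe]
    nlinarith
  have hH : (H a b : ℝ) ≤ (H a b : ℝ) ^ (1 + η) := by
    calc (H a b : ℝ) = (H a b : ℝ) ^ (1 : ℝ) := (Real.rpow_one _).symm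
      _ ≤ _ := Real.rpow_le_rpow_of_exponent_le hH1 (by linarith)
  have h1 : |P a b - 1| ≤ 1 / 2 * (1 / ∏ i, (a i : ℝ)) := by
    refine h.le.trans ?_
    have h2 : (0 : ℝ) < (H a b : ℝ) ^ (1 + η) := by linarith
    rw [div_le_iff₀ h2]
    have h3 : 1 / 2 * (1 / ∏ i, (a i : ℝ)) * (H a b : ℝ) ≤
        1 / 2 * (1 / ∏ i, (a i : ℝ)) * (H a b : ℝ) ^ (1 + η) :=
      mul_le_mul_of_nonneg_left hH (by positivity)
    refine le_trans ?_ h3
    rw [hHe]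
    have h4 : 1 / 2 * (1 / ∏ i, (a i : ℝ)) * ((∏ i, ((b i).natAbs : ℝ)) * ∏ i, (a i : ℝ)) =
        1 / 2 * ∏ i, ((b i).natAbs : ℝ) := by
      field_simp
    rw [h4]
    linarith
  have hP0 : 0 < P a b := prod_pos fun i _ => zpow_pos (by exact_mod_cast ha i) _
  have hlog : Real.log (P a b) = ∑ i, (b i : ℝ) * Real.log (a i) := by
    unfold P
    rw [Real.log_prod fun i _ => ?_]
    · exact sum_congr rfl fun i _ => by rw [Real.log_zpow]
    · have : (a i : ℝ) ≠ 0 := by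
        have := ha i
        have h2 : a i ≠ 0 := by omega
        exact_mod_cast h2
      exact zpow_ne_zero _ this
  rw [add_zero, ← hlog]
  set x : ℝ := 1 / ∏ i, (a i : ℝ) with hx
  have hx1 : x ≤ 1 := by
    rw [hx, div_le_one hA0]
    exact hA1
  have hx0 : 0 < x := by positivity
  obtain ⟨h5, h6⟩ := abs_le.1 h1
  rw [abs_le]
  constructor
  · have h7 := Real.one_sub_inv_le_log_of_pos hP0
    refine le_trans ?_ h7
    have h8 : (P a b)⁻¹ ≤ 1 + x := by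
      rw [inv_le_comm₀ hP0 (by positivity)]
      have : (1 + x)⁻¹ ≤ 1 - x / 2 := by
        rw [inv_le_iff_one_le_mul₀ (by positivity)]
        nlinarith
      linarith
    linarith
  · have h7 := Real.log_le_sub_one_of_pos hP0
    linarith

/-- **Square-root bound for the exceptional bases.** -/
theorem result (n : ℕ) (hn : 1 ≤ n) (ε : ℝ) (hε : 0 < ε) :
    ∃ C : ℝ, 0 < C ∧ ∀ X : ℕ, 1 ≤ X → ∀ η : ℝ, 0 ≤ η →
      ∀ 𝓑 : Finset (Fin n → ℤ), (∀ b ∈ 𝓑, ∀ i, b i ≠ 0) →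
        (Exceptional X η 𝓑).Finite ∧
          ((Exceptional X η 𝓑).ncard : ℝ) ≤ C * (𝓑.card : ℝ) * (X : ℝ) ^ ((1 : ℝ) / 2 + ε) := by
  classical
  have : Nonempty (Fin n) := ⟨⟨0, hn⟩⟩
  obtain ⟨C, hC0, hC⟩ := Pool.Agent.TH201.LW.few2 (κ := Fin n) ε hε
  refine ⟨C, hC0, fun X hX η hη 𝓑 h𝓑 => ?_⟩
  set Box : Finset (Fin n → ℕ) := Fintype.piFinset fun _ => Icc 1 X with hBox
  set S : (Fin n → ℤ) → Finset (Fin n → ℕ) :=
    fun b => Box.filter fun a => ∏ i, a i ≤ X ∧ Fails η a b with hS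
  have hbox : ∀ a : Fin n → ℕ, (∀ i, 1 ≤ a i) → ∏ i, a i ≤ X → a ∈ Box := by
    intro a h1 h2
    rw [hBox, Fintype.mem_piFinset]
    intro i
    rw [mem_Icc]
    refine ⟨h1 i, le_trans (Nat.le_of_dvd ?_ (dvd_prod_of_mem _ (mem_univ i))) h2⟩
    exact Nat.pos_of_ne_zero (prod_ne_zero_iff.2 fun i _ => by
      have := h1 i
      omega)
  have hSc : ∀ b ∈ 𝓑, ((S b).card : ℝ) ≤ C * (X : ℝ) ^ ((1 : ℝ) / 2 + ε) := by
    intro b hb
    refine hC X hX (fun i => (b i : ℝ)) 0 (fun i => ?_) (S b) ?_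
    · have : (1 : ℤ) ≤ |b i| := Int.one_le_abs (h𝓑 b hb i)
      exact_mod_cast this
    · intro a ha
      rw [hS, mem_filter, hBox, Fintype.mem_piFinset] at ha
      have h1 : ∀ i, 1 ≤ a i := fun i => (mem_Icc.1 (ha.1 i)).1
      exact ⟨h1, ha.2.1, log_small η hη a h1 b (h𝓑 b hb) ha.2.2⟩
  have hsub : Exceptional X η 𝓑 ⊆ ↑(𝓑.biUnion S) := by
    rintro a ⟨ha, haX, b, hb, hab⟩
    rw [mem_coe, mem_biUnion]
    refine ⟨b, hb, ?_⟩
    rw [hS, mem_filter]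
    exact ⟨hbox a ha haX, haX, hab⟩
  refine ⟨(finite_toSet _).subset hsub, ?_⟩
  have h1 : (Exceptional X η 𝓑).ncard ≤ (𝓑.biUnion S).card := by
    rw [← Set.ncard_coe_finset]
    exact Set.ncard_le_ncard hsub (finite_toSet _)
  calc ((Exceptional X η 𝓑).ncard : ℝ) ≤ ((𝓑.biUnion S).card : ℝ) := by exact_mod_cast h1
    _ ≤ ∑ b ∈ 𝓑, ((S b).card : ℝ) := by exact_mod_cast card_biUnion_le
    _ ≤ ∑ _b ∈ 𝓑, C * (X : ℝ) ^ ((1 : ℝ) / 2 + ε) := sum_le_sum hSc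
    _ = C * (𝓑.card : ℝ) * (X : ℝ) ^ ((1 : ℝ) / 2 + ε) := by
        rw [sum_const, nsmul_eq_mul]
        ring

end Pool.Agent.Results.MP_e07dae_nt.SquareRootBases
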